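import Pool.Agent.H49.KT.UTargets

/-!
Stacks as a list (letter EN of the board kt2_modules).
-/

namespace Pool.Agent.H54.KT

open Turing Function
open Pool.Agent.H49.KT
open Pool.Agent.H49.KT.Uni

theorem en_ix {V : BM} (s : Sch V) (S : SK V) (k : V.tm.K) (i : Fin (s.n + 1))
    (hi : s.e.symm i = k) :
    (S (s.e.symm i)).map (s.cd (s.e.symm i)) = (S k).map (s.cd k) := by
  subst hi
  rfl

theorem en_get {V : BM} (s : Sch V) (S : SK V) (i : Fin (s.n + 1)) :
    (s.enc S)[(i : ℕ)]? = some ((S (s.e.symm i)).map (s.cd (s.e.symm i))) := by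
  unfold Sch.enc
  rw [List.getElem?_ofFn, dif_pos i.2]

theorem en_len {V : BM} (s : Sch V) (S : SK V) : (s.enc S).length = s.n + 1 := by
  unfold Sch.enc
  rw [List.length_ofFn]

theorem en1 {V : BM} (s : Sch V) (S : SK V) (k : V.tm.K) :
    (s.enc S)[(s.e k : ℕ)]? = some ((S k).map (s.cd k)) := by
  rw [en_get, en_ix s S k (s.e k) (s.e.symm_apply_apply k)]

theorem en2 {V : BM} (s : Sch V) (S : SK V) (k : V.tm.K) (l : List (V.tm.Γ k)) :
    (s.enc S).set (s.e k : ℕ) (l.map (s.cd k)) =
      s.enc (@update _ _ V.tm.kDecidableEq S k l) := by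
  apply List.ext_getElem?
  intro i
  by_cases hi : i < s.n + 1
  · obtain ⟨k', hk'⟩ : ∃ k', s.e k' = ⟨i, hi⟩ := ⟨s.e.symm ⟨i, hi⟩, s.e.apply_symm_apply _⟩
    have hi' : i = (s.e k' : ℕ) := by rw [hk']
    rw [hi', en1, List.getElem?_set]
    by_cases hk : k = k'
    · subst hk
      rw [if_pos rfl, if_pos (by rw [en_len]; exact (s.e k).2)]
      have e : (@update _ _ V.tm.kDecidableEq S k l) k = l := update_self _ _ _
      rw [e]
    · rw [if_neg (fun h => hk (s.e.injective (Fin.ext h))), en1]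
      have e : (@update _ _ V.tm.kDecidableEq S k l) k' = S k' :=
        update_of_ne (fun h => hk h.symm) _ _
      rw [e]
  · rw [List.getElem?_eq_none (by rw [List.length_set, en_len]; omega),
      List.getElem?_eq_none (by rw [en_len]; omega)]

theorem set_rep (j k : ℕ) (x : List ℕ) :
    (List.replicate (j + (k + 1)) ([] : List ℕ)).set j x =
      List.replicate j [] ++ x :: List.replicate k [] := by
  rw [List.replicate_add, List.set_append_right _ _ (by simp), List.length_replicate,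
    Nat.sub_self, List.replicate_succ, List.set_cons_zero]

theorem pf_EN : T_EN := by
  intro V s S
  refine ⟨en1 s S, en2 s S, ?_, ?_⟩
  · refine ⟨List.ofFn (fun i : Fin s.n => (S (s.e.symm i.succ)).map (s.cd (s.e.symm i.succ))), ?_⟩
    unfold Sch.enc
    rw [List.ofFn_succ, en_ix s S V.tm.k₁ 0 (by rw [← s.e_k₁, s.e.symm_apply_apply])]
  · refine ⟨(s.e V.tm.k₀ : ℕ), s.n - (s.e V.tm.k₀ : ℕ), fun d => ?_⟩
    rw [← en2]
    have h1 : s.enc (fun _ => []) = List.replicate (s.n + 1) ([] : List ℕ) := by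
      unfold Sch.enc
      simp only [List.map_nil]
      exact List.ofFn_const _ _
    have hj := (s.e V.tm.k₀).2
    have h2 : s.n + 1 = (s.e V.tm.k₀ : ℕ) + (s.n - (s.e V.tm.k₀ : ℕ) + 1) := by omega
    have h3 : (d.map V.inputAlphabet.symm).map (s.cd V.tm.k₀) = d.map Bool.toNat := by
      rw [List.map_map]
      refine List.map_congr_left fun b _ => ?_
      simp only [comp_apply]
      rw [s.cd_in, V.inputAlphabet.apply_symm_apply]
    unfold L₀
    rw [h1, h3]
    have h4 := set_rep (s.e V.tm.k₀ : ℕ) (s.n - (s.e V.tm.k₀ : ℕ)) (d.map Bool.toNat)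
    rw [← h2] at h4
    exact h4

end Pool.Agent.H54.KT
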