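import Pool.Agent.H49.KT.Targets

/-!
Module STEP: one step of the simulated machine.
-/

set_option autoImplicit false

namespace Pool.Agent.H54.KT

open Turing Function Pool.Agent.H49.KT

variable {U : BM}

theorem spec_tr (q : TM2.Stmt U.tm.Γ U.tm.Λ U.tm.σ) : ∃ B : ℕ, ∀ (v : MM U) (u : UU U)
    (z : Nm → List Bool), Spec (tr q) (mkS v u z)
      (mkS (v.slu (TM2.stepAux q v.u u).l (TM2.stepAux q v.u u).var)
        (TM2.stepAux q v.u u).stk z) B := by
  induction q with
  | push k f q ih =>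
    obtain ⟨B, hB⟩ := ih
    refine ⟨1 + B, fun v u z => ?_⟩
    have h := Spec.push (K := KK U) (Γ := GG U) (.inl k) (fun v : MM U => f v.u) (mkS v u z)
    rw [upd_inl] at h
    exact h.seq (hB v (update u k (f v.u :: u k)) z)
  | peek k f q ih =>
    obtain ⟨B, hB⟩ := ih
    refine ⟨1 + B, fun v u z => ?_⟩
    have h := Spec.peek (K := KK U) (Γ := GG U) (.inl k) (fun (v : MM U) (o : Option (U.tm.Γ k)) =>
      v.slu v.l (f v.u o)) (mkS v u z)
    rw [st_eta] at h
    exact h.seq (hB (v.slu v.l (f v.u (u k).head?)) u z)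
  | pop k f q ih =>
    obtain ⟨B, hB⟩ := ih
    refine ⟨1 + B, fun v u z => ?_⟩
    have h := Spec.pop (K := KK U) (Γ := GG U) (.inl k) (fun (v : MM U) (o : Option (U.tm.Γ k)) =>
      v.slu v.l (f v.u o)) (mkS v u z)
    rw [upd_inl] at h
    exact h.seq (hB (v.slu v.l (f v.u (u k).head?)) (update u k (u k).tail) z)
  | load f q ih =>
    obtain ⟨B, hB⟩ := ih
    refine ⟨1 + B, fun v u z => ?_⟩
    exact (sp_load v u z (fun v : MM U => v.slu v.l (f v.u))).seq (hB (v.slu v.l (f v.u)) u z)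
  | branch p q₁ q₂ ih₁ ih₂ =>
    obtain ⟨B₁, h₁⟩ := ih₁
    obtain ⟨B₂, h₂⟩ := ih₂
    refine ⟨B₁ + B₂ + 1, fun v u z => ?_⟩
    cases hp : p v.u
    · have e : TM2.stepAux (TM2.Stmt.branch p q₁ q₂) v.u u = TM2.stepAux q₂ v.u u := by
        simp only [TM2.stepAux, hp, cond_false]
      rw [e]
      exact (Spec.ite_f (p := fun v : MM U => p v.u) (c₁ := tr q₁) (s := mkS v u z) hp
        (h₂ v u z)).mono (by omega)
    · have e : TM2.stepAux (TM2.Stmt.branch p q₁ q₂) v.u u = TM2.stepAux q₁ v.u u := by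
        simp only [TM2.stepAux, hp, cond_true]
      rw [e]
      exact (Spec.ite_t (p := fun v : MM U => p v.u) (c₂ := tr q₂) (s := mkS v u z) hp
        (h₁ v u z)).mono (by omega)
  | goto f =>
    exact ⟨1, fun v u z => sp_load v u z (fun v : MM U => v.slu (some (f v.u)) v.u)⟩
  | halt =>
    exact ⟨1, fun v u z => sp_load v u z (fun v : MM U => v.slu none v.u)⟩

theorem spec_disp (ls : List U.tm.Λ) : ∃ B : ℕ, ∀ (v : MM U) (u : UU U)
    (z : Nm → List Bool), (∀ l ∈ ls, v.l = some l → Spec (disp ls) (mkS v u z)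
      (mkS (v.slu (TM2.stepAux (U.tm.m l) v.u u).l (TM2.stepAux (U.tm.m l) v.u u).var)
        (TM2.stepAux (U.tm.m l) v.u u).stk z) B) ∧
      (v.l = none → Spec (disp ls) (mkS v u z) (mkS v u z) B) := by
  classical
  induction ls with
  | nil =>
    refine ⟨1, fun v u z => ⟨?_, fun _ => sp_skip v u z⟩⟩
    intro l hl
    exact absurd hl (by simp)
  | cons l ls ih =>
    obtain ⟨B, hB⟩ := ih
    obtain ⟨A, hA⟩ := spec_tr (U.tm.m l)
    refine ⟨A + B + 1, fun v u z => ⟨?_, ?_⟩⟩
    · intro l' hl' hv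
      by_cases h : l' = l
      · subst h
        refine (Spec.ite_t (s := mkS v u z) ?_ (hA v u z)).mono (by omega)
        simp [hv]
      · refine (Spec.ite_f (s := mkS v u z) ?_ ((hB v u z).1 l' ?_ hv)).mono (by omega)
        · simp [hv, h]
        · rcases List.mem_cons.1 hl' with h' | h'
          · exact absurd h' h
          · exact h'
    · intro hv
      refine (Spec.ite_f (s := mkS v u z) ?_ ((hB v u z).2 hv)).mono (by omega)
      simp [hv]

theorem pf_STEP : T_STEP := by
  intro U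
  let _ := U.tm.ΛFin
  obtain ⟨B, hB⟩ := spec_disp (U := U) Finset.univ.toList
  refine ⟨B, fun v u z => ?_⟩
  cases hv : v.l with
  | none =>
    have h := (hB v u z).2 hv
    have e : v.slu none v.u = v := by
      cases v
      simp_all [Mem.slu]
    have e2 : fs U ⟨none, v.u, u⟩ = ⟨none, v.u, u⟩ := rfl
    rw [e2]
    change Spec stepU (mkS v u z) (mkS (v.slu none v.u) u z) B
    rw [e]
    exact h
  | some l =>
    have h := (hB v u z).1 l (Finset.mem_toList.2 (Finset.mem_univ l)) hv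
    have e2 : fs U ⟨some l, v.u, u⟩ = TM2.stepAux (U.tm.m l) v.u u := rfl
    rw [e2]
    exact h

end Pool.Agent.H54.KT
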