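import Pool.Agent.H49.KT.Targets

/-!
Module UNI: the modified machine is universal.
-/

set_option autoImplicit false

namespace Pool.Agent.H54.KT

open Turing Function Pool.Agent.H49.KT

theorem outputs_mono {M : BM} {d x : List Bool} {t t' : ℕ} (h : M.Outputs d x t) (ht : t ≤ t') :
    M.Outputs d x t' := by
  obtain ⟨h⟩ := h
  exact ⟨⟨h.toEvalsTo, h.steps_le_m.trans ht⟩⟩

theorem pf_UNI : T_OUT → T_SIM → T_UNI := by
  intro hO hS e U hU
  obtain ⟨C, hC⟩ := hS U
  refine ⟨e + 5, fun V => ?_⟩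
  obtain ⟨c, k, hk⟩ := hU V
  obtain ⟨B, hB⟩ := hO V
  refine ⟨false :: c, C * (B + 1) ^ 5 * k, fun d x t hV => ?_⟩
  obtain ⟨T, hT, -, -, -, -, hx⟩ := hB d x t hV
  have h1 := hC (c ++ d) x _ (hk d x t hV)
  refine outputs_mono h1 ?_
  have h2 : x.length + 1 ≤ (B + 1) * (t + d.length + 1) := by
    have : B * T ≤ B * t := Nat.mul_le_mul_left B hT
    nlinarith
  calc C * (x.length + 1) ^ 5 * (k * (t + d.length + 1) ^ e)
      ≤ C * ((B + 1) * (t + d.length + 1)) ^ 5 * (k * (t + d.length + 1) ^ e) :=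
        Nat.mul_le_mul_right _ (Nat.mul_le_mul_left _ (Nat.pow_le_pow_left h2 5))
    _ = C * (B + 1) ^ 5 * k * (t + d.length + 1) ^ (e + 5) := by ring

end Pool.Agent.H54.KT
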