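import Pool.Agent.H49.KT.UTargets

/-!
One step of the machine by table steps (letter AUX of the board kt2_modules).
-/

namespace Pool.Agent.H54.KT

open Turing Function
open Pool.Agent.H49.KT
open Pool.Agent.H49.KT.Uni

theorem vl_upd {V : BM} {S : SK V} (hS : Vl V S) (k : V.tm.K) (l : List (V.tm.Γ k))
    (hl : ∀ g ∈ l, Sy V k g) : Vl V (@update _ _ V.tm.kDecidableEq S k l) := by
  intro k' g hg
  by_cases h : k' = k
  · subst h
    have e : (@update _ _ V.tm.kDecidableEq S k' l) k' = l := update_self _ _ _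
    rw [e] at hg
    exact hl g hg
  · have e : (@update _ _ V.tm.kDecidableEq S k l) k' = S k' := update_of_ne h _ _
    rw [e] at hg
    exact hS k' g hg

theorem same_app {V : BM} (s : Sch V) (k : V.tm.K) (l : List (V.tm.Γ k)) :
    s.same k l.head? ++ l.tail.map (s.cd k) = l.map (s.cd k) := by
  cases l with
  | nil => rfl
  | cons g t => rfl

/-- one table step followed by a run -/
theorem chn {V : BM} (s : Sch V) {q : SQ V} {a : V.tm.σ} {A A' : List (List ℕ)} {q' : ℕ}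
    (h : TStep s.tbl (s.st q a) A q' A') {T T' : ℕ} {L : List (List ℕ)}
    (h' : TSteps s.tbl (T + T') q' A' 0 L) : TSteps s.tbl (T + 1 + T') (s.st q a) A 0 L := by
  have e : T + 1 + T' = T + T' + 1 := by omega
  rw [e]
  refine TSteps.step ?_ h h'
  have := s.st_ge q a
  omega

theorem aux_q (hQS : T_QS) (hGEN : T_GEN) (V : BM) (s : Sch V) (q : SQ V) : Qs V q →
    ∃ D : ℕ, ∀ (a : V.tm.σ) (S : SK V), Vl V S →
      Vl V (@TM2.stepAux _ _ _ _ V.tm.kDecidableEq q a S).stk ∧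
      ∃ T ≤ D, ∀ (T' : ℕ) (L : List (List ℕ)),
        TSteps s.tbl T' (s.sc (@TM2.stepAux _ _ _ _ V.tm.kDecidableEq q a S))
          (s.enc (@TM2.stepAux _ _ _ _ V.tm.kDecidableEq q a S).stk) 0 L →
        TSteps s.tbl (T + T') (s.st q a) (s.enc S) 0 L := by
  obtain ⟨-, h1, h2, h3, h4, h5, -⟩ := hQS V
  have h0 : ((s.e V.tm.k₁ : Fin (s.n + 1)) : ℕ) = 0 := by rw [s.e_k₁]; rfl
  induction q with
  | push k f q ih =>
    intro hq
    obtain ⟨D, hD⟩ := ih (h1 _ _ _ hq)
    refine ⟨D + 1, fun a S hS => ?_⟩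
    have hS' : Vl V (@update _ _ V.tm.kDecidableEq S k (f a :: S k)) := by
      refine vl_upd hS k _ fun g hg => ?_
      rcases List.mem_cons.1 hg with rfl | hg
      · exact Or.inr ⟨q, f, a, hq, rfl⟩
      · exact hS k g hg
    obtain ⟨e1, T, hT, e2⟩ := hD a _ hS'
    refine ⟨e1, T + 1, by omega, fun T' L hL => ?_⟩
    refine chn s ?_ (e2 T' L hL)
    refine hGEN V s _ a S k (fun o => (s.cd k (f a) :: s.same k o, s.st q a)) (f a :: S k) hq hS
      rfl ?_
    show s.cd k (f a) :: (s.same k (S k).head? ++ (S k).tail.map (s.cd k)) = _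
    rw [same_app]
    rfl
  | peek k f q ih =>
    intro hq
    obtain ⟨D, hD⟩ := ih (h2 _ _ _ hq)
    refine ⟨D + 1, fun a S hS => ?_⟩
    obtain ⟨e1, T, hT, e2⟩ := hD (f a (S k).head?) _ hS
    refine ⟨e1, T + 1, by omega, fun T' L hL => ?_⟩
    refine chn s ?_ (e2 T' L hL)
    have h := hGEN V s _ a S k (fun o => (s.same k o, s.st q (f a o))) (S k) hq hS
      rfl (same_app s k (S k))
    have e : (@update _ _ V.tm.kDecidableEq S k (S k)) = S := update_eq_self _ _
    rw [e] at h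
    exact h
  | pop k f q ih =>
    intro hq
    obtain ⟨D, hD⟩ := ih (h3 _ _ _ hq)
    refine ⟨D + 1, fun a S hS => ?_⟩
    have hS' : Vl V (@update _ _ V.tm.kDecidableEq S k (S k).tail) :=
      vl_upd hS k _ fun g hg => hS k g (List.mem_of_mem_tail hg)
    obtain ⟨e1, T, hT, e2⟩ := hD (f a (S k).head?) _ hS'
    refine ⟨e1, T + 1, by omega, fun T' L hL => ?_⟩
    refine chn s ?_ (e2 T' L hL)
    exact hGEN V s _ a S k (fun o => ([], s.st q (f a o))) (S k).tail hq hS rfl rfl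
  | load f q ih =>
    intro hq
    obtain ⟨D, hD⟩ := ih (h4 _ _ hq)
    refine ⟨D + 1, fun a S hS => ?_⟩
    obtain ⟨e1, T, hT, e2⟩ := hD (f a) _ hS
    refine ⟨e1, T + 1, by omega, fun T' L hL => ?_⟩
    refine chn s ?_ (e2 T' L hL)
    have h := hGEN V s _ a S V.tm.k₁ (fun o => (s.same _ o, s.st q (f a))) (S V.tm.k₁) hq hS
      (by rw [h0]; rfl) (same_app s _ _)
    have e : (@update _ _ V.tm.kDecidableEq S V.tm.k₁ (S V.tm.k₁)) = S := update_eq_self _ _
    rw [e] at h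
    exact h
  | branch p q₁ q₂ ih₁ ih₂ =>
    intro hq
    obtain ⟨D₁, hD₁⟩ := ih₁ (h5 _ _ _ hq).1
    obtain ⟨D₂, hD₂⟩ := ih₂ (h5 _ _ _ hq).2
    refine ⟨D₁ + D₂ + 1, fun a S hS => ?_⟩
    have h := hGEN V s _ a S V.tm.k₁
      (fun o => (s.same _ o, s.st (bif p a then q₁ else q₂) a)) (S V.tm.k₁) hq hS
      (by rw [h0]; rfl) (same_app s _ _)
    have e : (@update _ _ V.tm.kDecidableEq S V.tm.k₁ (S V.tm.k₁)) = S := update_eq_self _ _
    rw [e] at h
    cases hp : p a with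
    | true =>
      have e3 : @TM2.stepAux _ _ _ _ V.tm.kDecidableEq (.branch p q₁ q₂) a S =
          @TM2.stepAux _ _ _ _ V.tm.kDecidableEq q₁ a S := by
        simp only [TM2.stepAux, hp, cond_true]
      rw [e3]
      obtain ⟨e1, T, hT, e2⟩ := hD₁ a _ hS
      refine ⟨e1, T + 1, by omega, fun T' L hL => ?_⟩
      refine chn s ?_ (e2 T' L hL)
      simp only [hp, cond_true] at h
      exact h
    | false =>
      have e3 : @TM2.stepAux _ _ _ _ V.tm.kDecidableEq (.branch p q₁ q₂) a S =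
          @TM2.stepAux _ _ _ _ V.tm.kDecidableEq q₂ a S := by
        simp only [TM2.stepAux, hp, cond_false]
      rw [e3]
      obtain ⟨e1, T, hT, e2⟩ := hD₂ a _ hS
      refine ⟨e1, T + 1, by omega, fun T' L hL => ?_⟩
      refine chn s ?_ (e2 T' L hL)
      simp only [hp, cond_false] at h
      exact h
  | goto f =>
    intro hq
    refine ⟨1, fun a S hS => ⟨hS, 1, le_rfl, fun T' L hL => ?_⟩⟩
    have h := hGEN V s _ a S V.tm.k₁ (fun o => (s.same _ o, s.st (V.tm.m (f a)) a))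
      (S V.tm.k₁) hq hS (by rw [h0]; rfl) (same_app s _ _)
    have e : (@update _ _ V.tm.kDecidableEq S V.tm.k₁ (S V.tm.k₁)) = S := update_eq_self _ _
    rw [e] at h
    have h' := chn s h (T := 0) (T' := T') (L := L)
    rw [Nat.zero_add, Nat.zero_add] at h'
    exact h' hL
  | halt =>
    intro hq
    refine ⟨1, fun a S hS => ⟨hS, 1, le_rfl, fun T' L hL => ?_⟩⟩
    have h := hGEN V s _ a S V.tm.k₁ (fun o => (s.same _ o, 0))
      (S V.tm.k₁) hq hS (by rw [h0]; rfl) (same_app s _ _)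
    have e : (@update _ _ V.tm.kDecidableEq S V.tm.k₁ (S V.tm.k₁)) = S := update_eq_self _ _
    rw [e] at h
    have h' := chn s h (T := 0) (T' := T') (L := L)
    rw [Nat.zero_add, Nat.zero_add] at h'
    exact h' hL

theorem pf_AUX : T_QS → T_EN → T_GEN → T_AUX := by
  intro hQS _ hGEN V s
  have hQ := (hQS V).1
  choose D hD using fun l => aux_q hQS hGEN V s (V.tm.m l) (hQ l)
  letI : Fintype V.tm.Λ := V.tm.ΛFin
  refine ⟨∑ l, D l, fun l a S hS => ?_⟩
  obtain ⟨h1, T, hT, h2⟩ := hD l a S hS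
  refine ⟨h1, T, hT.trans ?_, h2⟩
  exact Finset.single_le_sum (f := D) (fun _ _ => Nat.zero_le _) (Finset.mem_univ l)

end Pool.Agent.H54.KT
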